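import Pool.Agent.PT44.Horn

/-! Upper bound for the number of inputs with a short proof in a sound system of rules. -/

namespace Pool.Agent.PT44

open Pool.Agent.SemRO

variable {Q : Type} {n : ℕ}

/-- the statement of the core theorem for `R` certificates reading `k n / R` variables each -/
def Core (k R : ℕ) (ε : ℝ) (n : ℕ) : Prop :=
  ∀ (W : Finset (Fin n → Bool)) (c : Fin R → (Fin n → Bool) → Fin n → Option Bool)
    (F : Set (Fin n → Bool)) (L : ℕ),
    n * Real.log 2 - ε * n ≤ Real.log W.card →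
    (∀ z ∈ W, ∀ j, Sub (c j z) z) →
    (∀ j, ∀ z ∈ W, ∀ z' ∈ W, Sub (c j z') z → Sub (c j z) z' → c j z = c j z') →
    (∀ z ∈ W, ∀ j, (dom (c j z)).card * R ≤ k * n) →
    (∀ u, (∀ j, ∃ w ∈ W, Sub (c j w) u) → u ∈ F) →
    (L : ℝ) ≤ Real.exp (ε * n) → ¬ RectFree F L

open Classical in
/-- few points are certified by families of short certificates of a rectangle-free set -/
theorem good_count {k R : ℕ} {ε : ℝ} (hcore : Core k R ε n) (X : Fin R → Set (Fin n → Option Bool))
    (F : Set (Fin n → Bool)) {L : ℕ} (hR : RectFree F L) (hL : (L : ℝ) ≤ Real.exp (ε * n))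
    (hXF : ∀ z ∈ Good X, z ∈ F) (hX : ∀ b, ∀ c ∈ X b, (dom c).card * R ≤ k * n) :
    (((Finset.univ.filter (fun z => z ∈ Good X)).card : ℕ) : ℝ) ≤
      Real.exp (n * Real.log 2 - ε * n) := by
  by_contra hcon
  push Not at hcon
  refine hcore (Finset.univ.filter (fun z => z ∈ Good X)) (fun b z => firstTerm (X b) z) F L
    ?_ ?_ ?_ ?_ ?_ hL hR
  · have h1 := Real.log_le_log (Real.exp_pos _) hcon.le
    rwa [Real.log_exp] at h1
  · intro z hz b
    exact (firstTerm_spec ((Finset.mem_filter.mp hz).2 b)).2.1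
  · intro b z hz z' hz' h1 h2
    obtain ⟨a1, a2, a3⟩ := firstTerm_spec ((Finset.mem_filter.mp hz).2 b)
    obtain ⟨b1, b2, b3⟩ := firstTerm_spec ((Finset.mem_filter.mp hz').2 b)
    have e1 := a3 _ b1 h1
    have e2 := b3 _ a1 h2
    exact (Fintype.equivFin _).injective (Fin.ext (le_antisymm e1 e2))
  · intro z hz b
    exact hX b _ (firstTerm_spec ((Finset.mem_filter.mp hz).2 b)).1
  · intro u hu
    refine hXF u fun b => ?_
    obtain ⟨w, hw, hs⟩ := hu b
    exact ⟨_, (firstTerm_spec ((Finset.mem_filter.mp hw).2 b)).1, hs⟩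

open Classical in
/-- Upper bound for the number of inputs with a proof reading at most `k n` variables (with
repetitions) in a sound system. -/
theorem rs_count [Fintype Q] {k R : ℕ} {ε : ℝ} (hR2 : 2 ≤ R) (hn : R ≤ n)
    (hcore : Core (4 * k + 4) R ε n) (H : RS Q n) (F : Set (Fin n → Bool))
    (hvars : ∀ q, (H.vars q).card * R ≤ n)
    (hH : ∀ z, (∃ l, H.PT z H.out l) → z ∈ F) {L : ℕ}
    (hR : RectFree F L) (hL : (L : ℝ) ≤ Real.exp (ε * n)) (G : Finset (Fin n → Bool))
    (htime : ∀ z ∈ G, ∃ l, H.PT z H.out l ∧ l.length ≤ k * n) :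
    (G.card : ℝ) ≤ (Fintype.card Q : ℝ) ^ R * Real.exp (n * Real.log 2 - ε * n) := by
  obtain ⟨s, hs⟩ : ∃ s, s = (4 * k + 4) * n / R := ⟨_, rfl⟩
  have hR0 : 0 < R := by omega
  have hsR : s * R ≤ (4 * k + 4) * n := by rw [hs]; exact Nat.div_mul_le_self _ _
  have hsR' : (4 * k + 4) * n < s * R + R := by
    rw [hs]
    have h1 := Nat.div_add_mod ((4 * k + 4) * n) R
    have h2 := Nat.mod_lt ((4 * k + 4) * n) hR0
    rw [mul_comm R] at h1
    omega
  have hns : n / R ≤ s := by
    rw [hs]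
    apply Nat.div_le_div_right
    exact Nat.le_mul_of_pos_left _ (by omega)
  have hs1 : 1 ≤ s := le_trans ((Nat.one_le_div_iff hR0).2 hn) hns
  have hv : ∀ q, (H.vars q).card ≤ s := fun q =>
    ((Nat.le_div_iff_mul_le hR0).2 (hvars q)).trans hns
  have hK : ∀ l : List (Fin n), l.length ≤ k * n → 2 * l.length + s ≤ s * R := by
    intro l hl
    -- s * R ≥ 2 * s and s * R > (4 k + 4) n - R
    have h1 : 2 * s ≤ s * R := by rw [mul_comm 2 s]; exact Nat.mul_le_mul_left _ hR2
    have h2 : (4 * k + 4) * n = 4 * (k * n) + 4 * n := by ring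
    omega
  have hR0' : 0 < R := hR0
  let S : (Fin R → Q) → Finset (Fin n → Bool) := fun v =>
    if v ⟨0, hR0'⟩ = H.out then Finset.univ.filter (fun z => z ∈ Good (Fam H s v)) else ∅
  have hS : ∀ v, ((S v).card : ℝ) ≤ Real.exp (n * Real.log 2 - ε * n) := by
    intro v
    simp only [S]
    split_ifs with h
    · refine good_count hcore (Fam H s v) F hR hL ?_ ?_
      · intro z hz
        apply hH z
        rw [← h]
        exact fam_sound H s v hz _
      · intro b c hc
        exact (Nat.mul_le_mul_right _ hc.1).trans hsR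
    · simp only [Finset.card_empty, Nat.cast_zero]; positivity
  have hsub : G ⊆ (Finset.univ : Finset (Fin R → Q)).biUnion S := by
    intro z hz
    obtain ⟨l, hl1, hl2⟩ := htime z hz
    obtain ⟨v, h1, h2⟩ := fam_complete H z s R hs1 hv hR0' hl1 (hK l hl2)
    refine Finset.mem_biUnion.mpr ⟨v, Finset.mem_univ _, ?_⟩
    simp only [S]
    rw [if_pos h1]
    exact Finset.mem_filter.mpr ⟨Finset.mem_univ _, h2⟩
  calc (G.card : ℝ)
      ≤ ((∑ j : Fin R → Q, (S j).card : ℕ) : ℝ) := by
        exact_mod_cast (Finset.card_le_card hsub).trans Finset.card_biUnion_le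
    _ = ∑ j : Fin R → Q, ((S j).card : ℝ) := by push_cast; rfl
    _ ≤ ∑ j : Fin R → Q, Real.exp (n * Real.log 2 - ε * n) := Finset.sum_le_sum fun c _ => hS c
    _ = (Fintype.card Q : ℝ) ^ R * Real.exp (n * Real.log 2 - ε * n) := by
        rw [Finset.sum_const, Finset.card_univ, nsmul_eq_mul]
        simp only [Fintype.card_fun, Fintype.card_fin]
        push_cast
        ring

end Pool.Agent.PT44
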