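import Pool.Agent.PT44.Count
import Pool.Agent.RK44.Circ

/-! Circuits over local functions, with a set `Y` of counted variables, as rule systems. -/

namespace Pool.Agent.PT44

open Pool.Agent.JT Pool.Agent.SemRO
open Pool.Agent.RK44 (used used_card out_used node_used ins)

variable {m N : ℕ}

/-- the variables in `Y` from `x`, the others from `base` -/
noncomputable def paste (Y : Finset (Fin N)) (base : {i // i ∉ Y} → Bool) (x : Fin Y.card → Bool) : Fin N → Bool :=
  fun i => if h : i ∈ Y then x (Y.equivFin ⟨i, h⟩) else base ⟨i, h⟩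

/-- the `i`-th element of `Y` -/
noncomputable def emb (Y : Finset (Fin N)) (i : Fin Y.card) : Fin N := (Y.equivFin.symm i : Fin N)

lemma emb_mem (Y : Finset (Fin N)) (i : Fin Y.card) : emb Y i ∈ Y := (Y.equivFin.symm i).2

lemma emb_inj (Y : Finset (Fin N)) : Function.Injective (emb Y) := fun _ _ h =>
  Y.equivFin.symm.injective (Subtype.ext h)

lemma paste_emb (Y : Finset (Fin N)) (base : {i // i ∉ Y} → Bool) (x : Fin Y.card → Bool)
    (i : Fin Y.card) : paste Y base x (emb Y i) = x i := by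
  unfold paste
  rw [dif_pos (emb_mem Y i)]
  congr 1
  exact Y.equivFin.apply_symm_apply i

lemma emb_equiv (Y : Finset (Fin N)) (i : Fin N) (h : i ∈ Y) : emb Y (Y.equivFin ⟨i, h⟩) = i := by
  unfold emb
  rw [Equiv.symm_apply_apply]

/-- splitting a word -/
noncomputable def pasteE (Y : Finset (Fin N)) :
    ({i // i ∉ Y} → Bool) × (Fin Y.card → Bool) ≃ (Fin N → Bool) where
  toFun p := paste Y p.1 p.2
  invFun z := (fun i => z i, fun i => z (emb Y i))
  left_inv := by
    rintro ⟨b, x⟩
    refine Prod.ext ?_ ?_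
    · funext i
      change paste Y b x i = b i
      unfold paste
      rw [dif_neg i.2]
    · funext i
      exact paste_emb Y b x i
  right_inv := by
    intro z
    funext i
    change paste Y _ _ i = z i
    unfold paste
    split_ifs with h
    · change z (emb Y (Y.equivFin ⟨i, h⟩)) = z i
      rw [emb_equiv]
    · rfl

open Classical in
lemma card_slices (Y : Finset (Fin N)) (G : Finset (Fin N → Bool)) :
    G.card = ∑ b : {i // i ∉ Y} → Bool,
      (Finset.univ.filter (fun x : Fin Y.card → Bool => paste Y b x ∈ G)).card := by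
  have e1 : G.card = ∑ y : Fin N → Bool, (if y ∈ G then 1 else 0) := by
    rw [← Finset.card_filter]
    congr 1
    ext y; simp
  rw [e1, ← Equiv.sum_comp (pasteE Y), Fintype.sum_prod_type]
  refine Finset.sum_congr rfl fun b _ => ?_
  rw [Finset.card_filter]
  rfl

lemma card_rest (Y : Finset (Fin N)) :
    Fintype.card ({i // i ∉ Y} → Bool) = 2 ^ (N - Y.card) := by
  rw [Fintype.card_fun, Fintype.card_bool]
  congr 1
  rw [Fintype.card_subtype_compl, Fintype.card_fin, Fintype.card_coe]

/-- restrictions of rectangle-free sets are rectangle-free -/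
lemma rectFree_paste {Y : Finset (Fin N)} {F : Set (Fin N → Bool)} {L : ℕ} (hF : RectFree F L)
    (base : {i // i ∉ Y} → Bool) : RectFree {x : Fin Y.card → Bool | paste Y base x ∈ F} L := by
  classical
  intro A u v hu hv
  obtain ⟨i, j, hij⟩ := hF (A.image (emb Y)) (fun i => paste Y base (u i))
    (fun j => paste Y base (v j)) (fun i j h => by
      obtain ⟨x, hx, hne⟩ := hu i j h
      exact ⟨emb Y x, Finset.mem_image_of_mem _ hx, by rw [paste_emb, paste_emb]; exact hne⟩)
    (fun i j h => by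
      obtain ⟨x, hx, hne⟩ := hv i j h
      refine ⟨emb Y x, fun hc => ?_, by rw [paste_emb, paste_emb]; exact hne⟩
      obtain ⟨x', hx', he⟩ := Finset.mem_image.1 hc
      exact hx (emb_inj Y he ▸ hx'))
  refine ⟨i, j, fun hcon => hij ?_⟩
  have e : mix (A.image (emb Y)) (paste Y base (u i)) (paste Y base (v j)) =
      paste Y base (mix A (u i) (v j)) := by
    funext x
    by_cases hx : x ∈ Y
    · have hx2 : x = emb Y (Y.equivFin ⟨x, hx⟩) := (emb_equiv Y x hx).symm
      rw [hx2]
      unfold mix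
      rw [paste_emb, paste_emb, paste_emb]
      have : emb Y (Y.equivFin ⟨x, hx⟩) ∈ A.image (emb Y) ↔ Y.equivFin ⟨x, hx⟩ ∈ A := by
        constructor
        · intro h
          obtain ⟨x', hx', he⟩ := Finset.mem_image.1 h
          exact emb_inj Y he ▸ hx'
        · intro h
          exact Finset.mem_image_of_mem _ h
      simp only [this]
    · have h1 : x ∉ A.image (emb Y) := by
        intro h
        obtain ⟨x', _, he⟩ := Finset.mem_image.1 h
        exact hx (he ▸ emb_mem Y x')
      unfold mix paste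
      rw [if_neg h1, dif_neg hx, dif_neg hx]
  change mix _ _ _ ∈ F
  rw [e]
  exact hcon

/-- the rules with one premise -/
def R1 (C : Circuit m) (p q : (Fin m ⊕ Fin C.size) × Bool) : Prop :=
  ∃ (g : Fin C.size) (a : Fin m ⊕ Fin (g : ℕ)),
    ((∃ b, C.gate g = .and a b ∨ C.gate g = .and b a) ∧ p = (C.node a, false) ∧ q = (.inr g, false)) ∨
    ((∃ b, C.gate g = .or a b ∨ C.gate g = .or b a) ∧ p = (C.node a, true) ∧ q = (.inr g, true)) ∨
    (C.gate g = .not a ∧ ∃ b, p = (C.node a, b) ∧ q = (.inr g, !b))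

/-- the rules with two premises -/
def R2 (C : Circuit m) (p p' q : (Fin m ⊕ Fin C.size) × Bool) : Prop :=
  ∃ (g : Fin C.size) (a b : Fin m ⊕ Fin (g : ℕ)),
    (C.gate g = .and a b ∧ p = (C.node a, true) ∧ p' = (C.node b, true) ∧ q = (.inr g, true)) ∨
    (C.gate g = .or a b ∧ p = (C.node a, false) ∧ p' = (C.node b, false) ∧ q = (.inr g, false))

/-- the rule system of a circuit over functions which depend on few variables of `Y` (and on all
variables outside `Y`), after fixing the variables outside `Y` -/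
noncomputable def toRS (C : Circuit m) (f : Fin m → (Fin N → Bool) → Bool) (Y : Finset (Fin N))
    (W : Fin m → Finset (Fin N))
    (hW : ∀ j x y, (∀ i, i ∉ Y ∨ i ∈ W j → x i = y i) → f j x = f j y)
    (base : {i // i ∉ Y} → Bool) : RS {q // q ∈ used C} Y.card where
  vars q := match q.1.1 with
    | .inl j => Finset.univ.filter (fun i : Fin Y.card => emb Y i ∈ W j)
    | .inr _ => ∅
  tv q x := match q.1.1 with
    | .inl j => f j (paste Y base x) = q.1.2
    | .inr _ => False
  dep := by
    rintro ⟨⟨j | g, b⟩, hq⟩ x y hxy h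
    · change f j (paste Y base y) = b
      change f j (paste Y base x) = b at h
      rw [← h]
      apply hW
      rintro i (hi | hi)
      · unfold paste
        rw [dif_neg hi, dif_neg hi]
      · by_cases hiY : i ∈ Y
        · have e := emb_equiv Y i hiY
          have h2 := hxy (Y.equivFin ⟨i, hiY⟩) (Finset.mem_filter.2 ⟨Finset.mem_univ _, by
            rw [e]; exact hi⟩)
          unfold paste
          rw [dif_pos hiY, dif_pos hiY]
          exact h2.symm
        · unfold paste
          rw [dif_neg hiY, dif_neg hiY]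
    · exact h
  r1 p q := R1 C p.1 q.1
  r2 p p' q := R2 C p.1 p'.1 q.1
  out := ⟨(C.out, true), out_used C true⟩

section

variable {C : Circuit m} {f : Fin m → (Fin N → Bool) → Bool} {Y : Finset (Fin N)}
  {W : Fin m → Finset (Fin N)}
  {hW : ∀ j x y, (∀ i, i ∉ Y ∨ i ∈ W j → x i = y i) → f j x = f j y}
  {base : {i // i ∉ Y} → Bool}

lemma card_emb_le (j : Fin m) :
    (Finset.univ.filter (fun i : Fin Y.card => emb Y i ∈ W j)).card ≤ (W j).card := by
  refine Finset.card_le_card_of_injOn (emb Y) ?_ ?_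
  · intro i hi
    exact (Finset.mem_filter.1 hi).2
  · intro i _ j _ h
    exact emb_inj Y h

lemma toRS_vars (q : {q // q ∈ used C}) :
    ((toRS C f Y W hW base).vars q).card ≤ match q.1.1 with
      | .inl j => (W j).card
      | .inr _ => 0 := by
  rcases q with ⟨⟨j | g, b⟩, hq⟩
  · exact card_emb_le j
  · exact le_rfl

lemma toRS_complete {x : Fin Y.card → Bool} {w : Fin m ⊕ Fin C.size} {b : Bool} {l : List (Fin m)}
    (h : C.Just (fun j => f j (paste Y base x)) w b l) : ∀ hq : (w, b) ∈ used C,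
    ∃ l', (toRS C f Y W hW base).PT x ⟨(w, b), hq⟩ l' ∧
      l'.length ≤ (l.map (fun j => (W j).card)).sum := by
  induction h with
  | leaf j =>
    intro hq
    refine ⟨_, .leaf (H := toRS C f Y W hW base) (q := ⟨(.inl j, _), hq⟩) rfl, ?_⟩
    rw [Finset.length_toList]
    have := toRS_vars (hW := hW) (base := base) (⟨(.inl j, f j (paste Y base x)), hq⟩ : {q // q ∈ used C})
    simpa using this
  | and_true hg _ _ ih1 ih2 =>
    intro hq
    obtain ⟨l1, h1, h1'⟩ := ih1 (node_used (by rw [hg]; simp [ins]) _)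
    obtain ⟨l2, h2, h2'⟩ := ih2 (node_used (by rw [hg]; simp [ins]) _)
    refine ⟨_, .two (H := toRS C f Y W hW base) ⟨_, _, _, Or.inl ⟨hg, rfl, rfl, rfl⟩⟩ h1 h2, ?_⟩
    rw [List.length_append, List.map_append, List.sum_append]
    omega
  | and_false_left hg _ ih =>
    intro hq
    obtain ⟨l1, h1, h1'⟩ := ih (node_used (by rw [hg]; simp [ins]) _)
    exact ⟨_, .one (H := toRS C f Y W hW base) ⟨_, _, Or.inl ⟨⟨_, Or.inl hg⟩, rfl, rfl⟩⟩ h1, h1'⟩
  | and_false_right hg _ ih =>
    intro hq
    obtain ⟨l1, h1, h1'⟩ := ih (node_used (by rw [hg]; simp [ins]) _)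
    exact ⟨_, .one (H := toRS C f Y W hW base) ⟨_, _, Or.inl ⟨⟨_, Or.inr hg⟩, rfl, rfl⟩⟩ h1, h1'⟩
  | or_true_left hg _ ih =>
    intro hq
    obtain ⟨l1, h1, h1'⟩ := ih (node_used (by rw [hg]; simp [ins]) _)
    exact ⟨_, .one (H := toRS C f Y W hW base)
      ⟨_, _, Or.inr (Or.inl ⟨⟨_, Or.inl hg⟩, rfl, rfl⟩)⟩ h1, h1'⟩
  | or_true_right hg _ ih =>
    intro hq
    obtain ⟨l1, h1, h1'⟩ := ih (node_used (by rw [hg]; simp [ins]) _)
    exact ⟨_, .one (H := toRS C f Y W hW base)
      ⟨_, _, Or.inr (Or.inl ⟨⟨_, Or.inr hg⟩, rfl, rfl⟩)⟩ h1, h1'⟩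
  | or_false hg _ _ ih1 ih2 =>
    intro hq
    obtain ⟨l1, h1, h1'⟩ := ih1 (node_used (by rw [hg]; simp [ins]) _)
    obtain ⟨l2, h2, h2'⟩ := ih2 (node_used (by rw [hg]; simp [ins]) _)
    refine ⟨_, .two (H := toRS C f Y W hW base) ⟨_, _, _, Or.inr ⟨hg, rfl, rfl, rfl⟩⟩ h1 h2, ?_⟩
    rw [List.length_append, List.map_append, List.sum_append]
    omega
  | not hg _ ih =>
    intro hq
    obtain ⟨l1, h1, h1'⟩ := ih (node_used (by rw [hg]; simp [ins]) _)
    exact ⟨_, .one (H := toRS C f Y W hW base) ⟨_, _, Or.inr (Or.inr ⟨hg, _, rfl, rfl⟩)⟩ h1, h1'⟩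

lemma toRS_sound {x : Fin Y.card → Bool} {q : {q // q ∈ used C}} {l : List (Fin Y.card)}
    (h : (toRS C f Y W hW base).PT x q l) :
    C.val (fun j => f j (paste Y base x)) q.1.1 = q.1.2 := by
  induction h with
  | @leaf q hq =>
    rcases q with ⟨⟨j | g, b⟩, hq'⟩
    · exact hq
    · exact hq.elim
  | @one p q l hr _ ih =>
    rcases p with ⟨p, hp⟩
    rcases q with ⟨q, hq⟩
    obtain ⟨g, a, ⟨⟨b, hb | hb⟩, rfl, rfl⟩ | ⟨⟨b, hb | hb⟩, rfl, rfl⟩ | ⟨hg, b, rfl, rfl⟩⟩ := hr
    · change C.val _ (.inr g) = _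
      rw [Circuit.val_inr, hb]; simp only [Gate.eval]; simp only at ih; rw [ih]; simp
    · change C.val _ (.inr g) = _
      rw [Circuit.val_inr, hb]; simp only [Gate.eval]; simp only at ih; rw [ih]; simp
    · change C.val _ (.inr g) = _
      rw [Circuit.val_inr, hb]; simp only [Gate.eval]; simp only at ih; rw [ih]; simp
    · change C.val _ (.inr g) = _
      rw [Circuit.val_inr, hb]; simp only [Gate.eval]; simp only at ih; rw [ih]; simp
    · change C.val _ (.inr g) = _
      rw [Circuit.val_inr, hg]; simp only [Gate.eval]; simp only at ih; rw [ih]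
  | @two p p' q l l' hr _ _ ih ih' =>
    rcases p with ⟨p, hp⟩
    rcases p' with ⟨p', hp'⟩
    rcases q with ⟨q, hq⟩
    obtain ⟨g, a, b, ⟨hg, rfl, rfl, rfl⟩ | ⟨hg, rfl, rfl, rfl⟩⟩ := hr
    · change C.val _ (.inr g) = _
      rw [Circuit.val_inr, hg]; simp only [Gate.eval]; simp only at ih ih'; rw [ih, ih']; simp
    · change C.val _ (.inr g) = _
      rw [Circuit.val_inr, hg]; simp only [Gate.eval]; simp only at ih ih'; rw [ih, ih']; simp

end

end Pool.Agent.PT44
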