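import Pool.Agent.SemRO.Count

/-! Systems of rules with at most two premises whose leaves are arbitrary local predicates; proof
trees, and cutting a proof tree into a bounded number of pieces that read few variables. -/

namespace Pool.Agent.PT44

open Pool.Agent.SemRO

/-- A system of rules on the states `Q` over `n` Boolean variables. -/
structure RS (Q : Type) (n : ℕ) where
  /-- the variables on which the leaf predicate of a state depends -/
  vars : Q → Finset (Fin n)
  /-- the leaf predicate of a state -/
  tv : Q → (Fin n → Bool) → Prop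
  dep : ∀ q x y, (∀ i ∈ vars q, x i = y i) → tv q x → tv q y
  /-- `r1 p q`: `q` follows from `p` -/
  r1 : Q → Q → Prop
  /-- `r2 p p' q`: `q` follows from `p` and `p'` -/
  r2 : Q → Q → Q → Prop
  /-- the goal -/
  out : Q

variable {Q : Type} {n : ℕ}

/-- proof trees; the list contains the variables read, with repetitions -/
inductive RS.PT (H : RS Q n) (y : Fin n → Bool) : Q → List (Fin n) → Prop
  | leaf {q : Q} : H.tv q y → RS.PT H y q (H.vars q).toList
  | one {p q : Q} {l : List (Fin n)} : H.r1 p q → RS.PT H y p l → RS.PT H y q l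
  | two {p p' q : Q} {l l' : List (Fin n)} : H.r2 p p' q → RS.PT H y p l → RS.PT H y p' l' →
      RS.PT H y q (l ++ l')

/-- provability from a partial assignment and hypotheses -/
inductive RS.PA (H : RS Q n) (c : Fin n → Option Bool) (Hy : Q → Prop) : Q → Prop
  | hyp {q : Q} : Hy q → RS.PA H c Hy q
  | leaf {q : Q} : (∀ z, Sub c z → H.tv q z) → RS.PA H c Hy q
  | one {p q : Q} : H.r1 p q → RS.PA H c Hy p → RS.PA H c Hy q
  | two {p p' q : Q} : H.r2 p p' q → RS.PA H c Hy p → RS.PA H c Hy p' → RS.PA H c Hy q

lemma RS.PA.mono {H : RS Q n} {c c' : Fin n → Option Bool} {Hy Hy' : Q → Prop} {q : Q}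
    (h : H.PA c Hy q) (hc : ∀ i b, c i = some b → c' i = some b) (hh : ∀ q, Hy q → Hy' q) :
    H.PA c' Hy' q := by
  induction h with
  | hyp h => exact .hyp (hh _ h)
  | leaf h => exact .leaf fun z hz => h z fun i b hi => hz i b (hc i b hi)
  | one h1 _ ih => exact .one h1 ih
  | two h1 _ _ ih1 ih2 => exact .two h1 ih1 ih2

lemma RS.PA.sound {H : RS Q n} {c : Fin n → Option Bool} {Hy : Q → Prop} {q : Q}
    (h : H.PA c Hy q) {z : Fin n → Bool} (hz : Sub c z) (hh : ∀ q, Hy q → ∃ l, H.PT z q l) :
    ∃ l, H.PT z q l := by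
  induction h with
  | hyp h => exact hh _ h
  | leaf h => exact ⟨_, .leaf (h z hz)⟩
  | one h1 _ ih => obtain ⟨l, hl⟩ := ih; exact ⟨_, .one h1 hl⟩
  | two h1 _ _ ih1 ih2 =>
    obtain ⟨l, hl⟩ := ih1
    obtain ⟨l', hl'⟩ := ih2
    exact ⟨_, .two h1 hl hl'⟩

/-- a list of pieces (most recent first): every state is provable from the variables read in its
piece and the states of the later entries of the list -/
def Chain (H : RS Q n) (z : Fin n → Bool) : List (Q × List (Fin n)) → Prop
  | [] => True
  | p :: ps => Chain H z ps ∧ H.PA (restr p.2.toFinset z) (fun q => q ∈ ps.map Prod.fst) p.1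

lemma restr_mono {D D' : Finset (Fin n)} (h : D ⊆ D') (z : Fin n → Bool) :
    ∀ i b, restr D z i = some b → restr D' z i = some b := by
  intro i b hi
  unfold restr at hi ⊢
  split_ifs at hi with h1
  rw [if_pos (h h1)]; exact hi

lemma Chain.append {H : RS Q n} {z : Fin n → Bool} {ps ps' : List (Q × List (Fin n))}
    (h : Chain H z ps) (h' : Chain H z ps') : Chain H z (ps ++ ps') := by
  induction ps with
  | nil => exact h'
  | cons p ps ih =>
    refine ⟨ih h.1, h.2.mono (fun _ _ hi => hi) fun q hq => ?_⟩
    change q ∈ List.map Prod.fst (ps ++ ps')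
    rw [List.map_append]
    exact List.mem_append_left _ hq

/-- total number of reads of a list of pieces -/
def tot (ps : List (Q × List (Fin n))) : ℕ := (ps.map fun p => p.2.length).sum

lemma tot_append (ps ps' : List (Q × List (Fin n))) : tot (ps ++ ps') = tot ps + tot ps' := by
  simp [tot]

lemma tot_cons (p : Q × List (Fin n)) (ps : List (Q × List (Fin n))) :
    tot (p :: ps) = p.2.length + tot ps := by
  simp [tot]

/-- cutting a proof tree -/
theorem cut (H : RS Q n) (z : Fin n → Bool) (s : ℕ) (hs : ∀ q, (H.vars q).card ≤ s) {q : Q}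
    {l : List (Fin n)} (h : H.PT z q l) : ∃ (ps : List (Q × List (Fin n))) (r : List (Fin n)),
      Chain H z ps ∧ H.PA (restr r.toFinset z) (fun q => q ∈ ps.map Prod.fst) q ∧
      (∀ p ∈ ps, p.2.length ≤ s) ∧ r.length ≤ s ∧ tot ps + r.length ≤ l.length ∧
      s * ps.length ≤ 2 * tot ps := by
  induction h with
  | @leaf q h =>
    refine ⟨[], (H.vars q).toList, trivial, .leaf fun y hy => ?_, by simp, ?_, by simp [tot],
      by simp [tot]⟩
    · refine H.dep q z y (fun i hi => ?_) h
      have := hy i (z i) (by simp [restr, hi])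
      exact this.symm
    · rw [Finset.length_toList]
      exact hs q
  | one h _ ih =>
    obtain ⟨ps, r, h1, h2, h3⟩ := ih
    exact ⟨ps, r, h1, .one h h2, h3⟩
  | @two p p' q l l' h _ _ ih ih' =>
    obtain ⟨ps, r, h1, h2, h3, h4, h5, h6⟩ := ih
    obtain ⟨ps', r', h1', h2', h3', h4', h5', h6'⟩ := ih'
    by_cases hlen : r.length + r'.length ≤ s
    · refine ⟨ps' ++ ps, r ++ r', h1'.append h1, ?_, ?_, ?_, ?_, ?_⟩
      · refine .two h (h2.mono (restr_mono ?_ z) fun q hq => ?_)
          (h2'.mono (restr_mono ?_ z) fun q hq => ?_)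
        · intro i hi
          rw [List.toFinset_append]
          exact Finset.mem_union_left _ hi
        · rw [List.map_append]; exact List.mem_append_right _ hq
        · intro i hi
          rw [List.toFinset_append]
          exact Finset.mem_union_right _ hi
        · rw [List.map_append]; exact List.mem_append_left _ hq
      · intro p hp
        rcases List.mem_append.1 hp with hp | hp
        · exact h3' p hp
        · exact h3 p hp
      · simpa using hlen
      · rw [tot_append, List.length_append, List.length_append]; omega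
      · rw [tot_append, List.length_append, Nat.mul_add]; omega
    · refine ⟨(p', r') :: (ps' ++ ((p, r) :: ps)), [], ⟨h1'.append ⟨h1, h2⟩, ?_⟩, ?_, ?_, by simp,
        ?_, ?_⟩
      · refine h2'.mono (fun _ _ hi => hi) fun q hq => ?_
        rw [List.map_append]; exact List.mem_append_left _ hq
      · refine .two h (.hyp ?_) (.hyp ?_) <;> simp
      · intro x hx
        rcases List.mem_cons.1 hx with rfl | hx
        · exact h4'
        rcases List.mem_append.1 hx with hx | hx
        · exact h3' x hx
        rcases List.mem_cons.1 hx with rfl | hx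
        · exact h4
        · exact h3 x hx
      · rw [tot_cons, tot_append, tot_cons, List.length_append, List.length_nil]
        dsimp only
        omega
      · rw [tot_cons, tot_append, tot_cons, List.length_cons, List.length_append, List.length_cons]
        dsimp only
        have : s * (ps'.length + (ps.length + 1) + 1) = s * ps'.length + s * ps.length + 2 * s := by
          ring
        rw [this]
        omega

/-- a chain of exactly `K` pieces ending with the goal -/
theorem cut_exact (H : RS Q n) (z : Fin n → Bool) (s K : ℕ) (hs1 : 1 ≤ s)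
    (hs : ∀ q, (H.vars q).card ≤ s) {q : Q}
    {l : List (Fin n)} (h : H.PT z q l) (hK : 2 * l.length + s ≤ s * K) :
    ∃ ps : List (Q × List (Fin n)), ps.length = K ∧ Chain H z ps ∧ (∀ p ∈ ps, p.2.length ≤ s) ∧
      ∀ d : Q × List (Fin n), (ps.getD 0 d).1 = q := by
  obtain ⟨ps, r, h1, h2, h3, h4, h5, h6⟩ := cut H z s hs h
  have hlen : ps.length + 1 ≤ K := by
    have h7 : s * (ps.length + 1) ≤ s * K := by
      rw [Nat.mul_add]; omega
    exact Nat.le_of_mul_le_mul_left h7 (by omega)
  obtain ⟨j, hj⟩ := Nat.exists_eq_add_of_le hlen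
  have hpad : ∀ j : ℕ, Chain H z (List.replicate j (q, []) ++ ((q, r) :: ps)) := by
    intro j
    induction j with
    | zero => exact ⟨h1, h2⟩
    | succ j ih =>
      refine ⟨ih, .hyp ?_⟩
      simp
  refine ⟨List.replicate j (q, []) ++ ((q, r) :: ps), ?_, hpad j, ?_, ?_⟩
  · rw [List.length_append, List.length_replicate, List.length_cons]; omega
  · intro p hp
    rcases List.mem_append.1 hp with hp | hp
    · rw [List.eq_of_mem_replicate hp]; simp
    · rcases List.mem_cons.1 hp with rfl | hp
      · exact h4
      · exact h3 p hp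
  · intro d
    cases j with
    | zero => simp
    | succ j => simp [List.replicate_succ]

lemma chain_get {H : RS Q n} {z : Fin n → Bool} :
    ∀ {ps : List (Q × List (Fin n))}, Chain H z ps → ∀ (i : ℕ) (hi : i < ps.length),
      H.PA (restr (ps[i].2).toFinset z) (fun q => ∃ (j : ℕ) (hj : j < ps.length), i < j ∧ ps[j].1 = q)
        (ps[i].1) := by
  intro ps
  induction ps with
  | nil => intro _ i hi; exact absurd hi (by simp)
  | cons p ps ih =>
    intro h i hi
    cases i with
    | zero =>
      refine h.2.mono (fun _ _ hi => hi) fun q hq => ?_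
      obtain ⟨x, hx, rfl⟩ := List.mem_map.1 hq
      obtain ⟨j, hj, rfl⟩ := List.mem_iff_getElem.1 hx
      exact ⟨j + 1, by simpa using hj, by omega, by simp⟩
    | succ i =>
      have hi' : i < ps.length := by simpa using hi
      refine (ih h.1 i hi').mono (fun _ _ hi => hi) ?_
      rintro q ⟨j, hj, hij, rfl⟩
      exact ⟨j + 1, by simpa using hj, by omega, by simp⟩

/-! ### Families attached to a skeleton -/

/-- points certified by all families -/
def Good {K : ℕ} (X : Fin K → Set (Fin n → Option Bool)) : Set (Fin n → Bool) :=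
  {z | ∀ b, ∃ c ∈ X b, Sub c z}

/-- the families attached to a sequence of cut states -/
def Fam (H : RS Q n) {K : ℕ} (s : ℕ) (v : Fin K → Q) : Fin K → Set (Fin n → Option Bool) :=
  fun i => {c | (dom c).card ≤ s ∧ H.PA c (fun q => ∃ j, i < j ∧ v j = q) (v i)}

lemma fam_sound (H : RS Q n) {K : ℕ} (s : ℕ) (v : Fin K → Q)
    {z : Fin n → Bool} (hz : z ∈ Good (Fam H s v)) : ∀ i, ∃ l, H.PT z (v i) l := by
  have key : ∀ m : ℕ, ∀ i : Fin K, K ≤ (i : ℕ) + m → ∃ l, H.PT z (v i) l := by
    intro m
    induction m with
    | zero => intro i hi; exact absurd i.2 (by omega)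
    | succ m ih =>
      intro i hi
      obtain ⟨c, ⟨_, hc⟩, hs⟩ := hz i
      refine hc.sound hs ?_
      rintro q ⟨j, hj, rfl⟩
      exact ih j (by have : (i : ℕ) < j := hj; omega)
  intro i
  exact key K i (by omega)

/-- completeness of the families -/
lemma fam_complete (H : RS Q n) (z : Fin n → Bool) (s K : ℕ) (hs1 : 1 ≤ s)
    (hs : ∀ q, (H.vars q).card ≤ s) (hK0 : 0 < K) {l : List (Fin n)} (h : H.PT z H.out l)
    (hK : 2 * l.length + s ≤ s * K) :
    ∃ v : Fin K → Q, v ⟨0, hK0⟩ = H.out ∧ z ∈ Good (Fam H s v) := by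
  classical
  obtain ⟨ps, hlen, hch, hsz, h0⟩ := cut_exact H z s K hs1 hs h hK
  refine ⟨fun i => (ps[(i : ℕ)]'(by rw [hlen]; exact i.2)).1, ?_, ?_⟩
  · have := h0 (H.out, [])
    rw [List.getD_eq_getElem _ _ (by omega)] at this
    exact this
  · intro i
    have hi : (i : ℕ) < ps.length := by rw [hlen]; exact i.2
    refine ⟨restr (ps[(i : ℕ)].2).toFinset z, ⟨?_, ?_⟩, sub_restr _ _⟩
    · rw [dom_restr]
      exact (List.toFinset_card_le _).trans (hsz _ (List.getElem_mem hi))
    · refine (chain_get hch i hi).mono (fun _ _ h => h) ?_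
      rintro q ⟨j, hj, hij, rfl⟩
      exact ⟨⟨j, by omega⟩, hij, rfl⟩

end Pool.Agent.PT44
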