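import Pool.Agent.PT44.Circ

/-! The counting bound for circuits whose accepted inputs have short justifications. -/

namespace Pool.Agent.PT44

open Pool.Agent.JT Pool.Agent.SemRO
open Pool.Agent.RK44 (used used_card out_used)

variable {m N : ℕ}

open Classical in
theorem circ_count {k R : ℕ} {ε : ℝ} (Y : Finset (Fin N)) (hR2 : 2 ≤ R) (hRn : R ≤ Y.card)
    (hcore : Core (4 * k + 4) R ε Y.card) (C : Circuit m) (f : Fin m → (Fin N → Bool) → Bool)
    (W : Fin m → Finset (Fin N))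
    (hW : ∀ j x y, (∀ i, i ∉ Y ∨ i ∈ W j → x i = y i) → f j x = f j y)
    (hWc : ∀ j, (W j).card * R ≤ Y.card) {F : Set (Fin N → Bool)} {t : ℕ} (hF : RectFree F t)
    (ht : (t : ℝ) ≤ Real.exp (ε * Y.card))
    (hs : ∀ y, C.eval (fun j => f j y) = true → y ∈ F) (G : Finset (Fin N → Bool))
    (hG : ∀ y ∈ G, ∃ l, C.Just (fun j => f j y) C.out true l ∧
      (l.map (fun j => (W j).card)).sum ≤ k * Y.card) :
    (G.card : ℝ) ≤ 2 ^ N * (4 * C.size + 2) ^ R * Real.exp (-(ε * Y.card)) := by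
  have hslice : ∀ b : {i // i ∉ Y} → Bool,
      (((Finset.univ.filter (fun x : Fin Y.card → Bool => paste Y b x ∈ G)).card : ℕ) : ℝ) ≤
      (4 * C.size + 2) ^ R * Real.exp (Y.card * Real.log 2 - ε * Y.card) := by
    intro b
    have h1 := rs_count hR2 hRn hcore (toRS C f Y W hW b)
      {x : Fin Y.card → Bool | paste Y b x ∈ F} (by
        intro q
        refine (Nat.mul_le_mul_right _ (toRS_vars q)).trans ?_
        rcases q with ⟨⟨j | g, b⟩, hq⟩
        · exact hWc j
        · simp) (by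
        rintro z ⟨l, hl⟩
        exact hs _ (toRS_sound hl)) (rectFree_paste hF b) ht
      (Finset.univ.filter (fun x : Fin Y.card → Bool => paste Y b x ∈ G)) (by
        intro x hx
        obtain ⟨l, h1, h2⟩ := hG _ (Finset.mem_filter.1 hx).2
        obtain ⟨l', h3, h4⟩ := toRS_complete (hW := hW) h1 (out_used C true)
        exact ⟨l', h3, h4.trans h2⟩)
    refine h1.trans ?_
    apply mul_le_mul_of_nonneg_right _ (Real.exp_pos _).le
    apply pow_le_pow_left₀ (Nat.cast_nonneg _)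
    rw [Fintype.card_coe]
    exact_mod_cast used_card C
  have h2 : (G.card : ℝ) = ∑ b : {i // i ∉ Y} → Bool,
      (((Finset.univ.filter (fun x : Fin Y.card → Bool => paste Y b x ∈ G)).card : ℕ) : ℝ) := by
    rw [card_slices Y G]
    push_cast
    rfl
  have hYN : Y.card ≤ N := by
    have := Finset.card_le_univ Y
    rwa [Fintype.card_fin] at this
  have hsum : ∑ _b : {i // i ∉ Y} → Bool, ((4 * (C.size : ℝ) + 2) ^ R *
      Real.exp (Y.card * Real.log 2 - ε * Y.card)) =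
      2 ^ (N - Y.card) * ((4 * (C.size : ℝ) + 2) ^ R *
        Real.exp (Y.card * Real.log 2 - ε * Y.card)) := by
    rw [Finset.sum_const, Finset.card_univ, card_rest, nsmul_eq_mul]
    push_cast
    rfl
  rw [h2]
  refine (Finset.sum_le_sum fun b _ => hslice b).trans ?_
  rw [hsum, sub_eq_add_neg, Real.exp_add]
  have h3 : Real.exp (Y.card * Real.log 2) = 2 ^ Y.card := by
    rw [mul_comm, Real.exp_mul, Real.exp_log (by norm_num), Real.rpow_natCast]
  have h4 : (2 : ℝ) ^ N = 2 ^ (N - Y.card) * 2 ^ Y.card := by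
    rw [← pow_add, Nat.sub_add_cancel hYN]
  rw [h3, h4]
  apply le_of_eq
  ring

/-- end of the computation -/
lemma finish {N l R s : ℕ} {e a : ℝ} (he0 : 0 ≤ e) (hle : (l : ℝ) + 2 + e + (3 + e) * R ≤ a)
    (h : (2 : ℝ) ^ (-e) * 2 ^ N ≤ 2 ^ (l + 2) * (2 ^ N * (4 * s + 2) ^ R * Real.exp (-a))) :
    (2 : ℝ) ^ e ≤ s := by
  by_contra hcon
  push Not at hcon
  have h1 : (1 : ℝ) ≤ 2 ^ e := Real.one_le_rpow (by norm_num) he0
  have h2 : (4 * (s : ℝ) + 2) < 2 ^ (3 + e) := by
    rw [Real.rpow_add (by norm_num)]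
    have : (2 : ℝ) ^ (3 : ℝ) = 8 := by norm_num
    rw [this]
    linarith
  have h3 : (4 * (s : ℝ) + 2) ^ R ≤ 2 ^ ((3 + e) * R) := by
    rw [Real.rpow_mul (by norm_num), Real.rpow_natCast]
    exact pow_le_pow_left₀ (by positivity) h2.le _
  have h6 : (2 : ℝ) ^ (l + 2) = 2 ^ ((l : ℝ) + 2) := by
    rw [← Real.rpow_natCast]
    push_cast
    rfl
  have h5 : (0 : ℝ) < 2 ^ N := by positivity
  have h7 : (2 : ℝ) ^ (-e) ≤ 2 ^ ((l : ℝ) + 2 + (3 + e) * R) * Real.exp (-a) := by
    rw [← mul_le_mul_iff_left₀ h5]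
    refine h.trans ?_
    rw [h6, Real.rpow_add (by norm_num) ((l : ℝ) + 2) ((3 + e) * R)]
    calc (2 : ℝ) ^ ((l : ℝ) + 2) * (2 ^ N * (4 * (s : ℝ) + 2) ^ R * Real.exp (-a))
        ≤ (2 : ℝ) ^ ((l : ℝ) + 2) * (2 ^ N * 2 ^ ((3 + e) * R) * Real.exp (-a)) := by
          apply mul_le_mul_of_nonneg_left _ (by positivity)
          apply mul_le_mul_of_nonneg_right _ (Real.exp_pos _).le
          exact mul_le_mul_of_nonneg_left h3 (by positivity)
      _ = _ := by ring
  have h8 : Real.exp (-a) < 2 ^ (-a) := by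
    rw [Real.rpow_def_of_pos (by norm_num)]
    apply Real.exp_lt_exp.2
    have h9 : Real.log 2 < 1 := by
      have := Real.log_two_lt_d9
      linarith
    have ha : 0 < a := by
      have : (0 : ℝ) ≤ (3 + e) * R := by positivity
      have : (0 : ℝ) ≤ l := Nat.cast_nonneg _
      linarith
    nlinarith
  have h10 : (2 : ℝ) ^ (-e) < 2 ^ ((l : ℝ) + 2 + (3 + e) * R) * 2 ^ (-a) :=
    h7.trans_lt (mul_lt_mul_of_pos_left h8 (by positivity))
  rw [← Real.rpow_add (by norm_num)] at h10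
  have h11 := (Real.rpow_lt_rpow_left_iff (by norm_num)).1 h10
  linarith

end Pool.Agent.PT44
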